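import Pool.Agent.helper91.RB.Spec6

/-!
# Row rb:CP2 (MP_24e2e7_nt): comparison of the product of the values and of the index (after CMP of helper8)
-/

set_option autoImplicit false

namespace Pool.Agent.RB

open NumberField IsDedekindDomain Module
open scoped nonZeroDivisors Real Classical IsMulCommutative

/-- finitely many primes above a prime -/
theorem CP2_fin (F k : Type) [Field F] [NumberField F] [Field k] [NumberField k] [Algebra F k]
    (p : HOS F) : {q : HOS k | q.under (𝓞 F) = p}.Finite := by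
  have := p.isMaximal
  have h1 : (p.asIdeal.primesOver (𝓞 k)).Finite := IsDedekindDomain.primesOver_finite p.asIdeal (𝓞 k)
  refine Set.Finite.of_finite_image (f := fun q : HOS k => q.asIdeal) (h1.subset ?_) ?_
  · rintro _ ⟨q, hq, rfl⟩
    refine ⟨q.isPrime, ⟨?_⟩⟩
    have hq' : q.under (𝓞 F) = p := hq
    rw [← hq']
    rfl
  · intro q _ q' _ h
    exact HeightOneSpectrum.ext h

theorem CP2 (hPR2 : PR2_stmt) (hIDX : IDX_stmt) (hPSI : PSI_stmt) (hLTR : LTR_stmt) (hUNT : UNT_stmt)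
    (hTCK : TCK_stmt) (hVLU : VLU_stmt) : CP2_stmt := by
  intro F k K H _ _ _ _ _ _ _ _ _ _ _ _ _ _ _ _ _ _ _ _ _ _ _ r D hck hc1 hdeg Lf hLf Θ hΘ
  -- the primes of `k` above `T`
  have hfin : {q : HOS k | q.under (𝓞 F) ∈ D.T}.Finite := by
    have h1 : {q : HOS k | q.under (𝓞 F) ∈ D.T} = ⋃ p ∈ D.T, {q : HOS k | q.under (𝓞 F) = p} := by
      ext q
      simp
    rw [h1]
    exact Set.Finite.biUnion (Finset.finite_toSet _) fun p _ => CP2_fin F k p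
  set Tk : Finset (HOS k) := hfin.toFinset with hTkdef
  have hTk : ∀ q, q ∈ Tk ↔ q.under (𝓞 F) ∈ D.T := fun q => by
    rw [hTkdef, Set.Finite.mem_toFinset]
    exact Iff.rfl
  have hty : ∀ q ∈ Tk, ty K q ≠ 0 := by
    intro q hq
    rw [hTk] at hq
    refine hUNT F k K H (q.under (𝓞 F)) (fun P hP => ?_) q rfl
    refine D.hram P ?_
    rw [hP]
    exact Finset.disjoint_right.1 D.hST hq
  have hund : ∀ P : HOS K, (P.under (𝓞 k)).under (𝓞 F) = P.under (𝓞 F) := fun P =>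
    (hVLU k K).2.2.2 F P
  have hset : {P : HOS K | P.under (𝓞 k) ∈ Tk} = {P : HOS K | P.under (𝓞 F) ∈ D.T} := by
    ext P
    rw [Set.mem_ofPred_eq, Set.mem_ofPred_eq, hTk, hund]
  -- the values
  obtain ⟨hL1, hL2⟩ := hLTR F K H Lf hLf
  obtain ⟨hfin0, z, hz⟩ := hPR2 F k K (AlgEquiv.restrictNormalHom K D.c) hc1 hck
    (fun ψ : (K ≃ₐ[F] K) →* ℂˣ => Lf (ψ.comp (AlgEquiv.restrictNormalHom K : (H ≃ₐ[F] H) →* (K ≃ₐ[F] K))))
    hL1 D.S D.T Tk hTk hty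
  have hprod : ∏ ψ ∈ Psi (AlgEquiv.restrictNormalHom K : (H ≃ₐ[F] H) →* (K ≃ₐ[F] K)).ker D.c, evQ ψ Θ =
      ∏ χ ∈ odd (AlgEquiv.restrictNormalHom K D.c : K ≃ₐ[F] K), LST (fun ψ : (K ≃ₐ[F] K) →* ℂˣ =>
        Lf (ψ.comp (AlgEquiv.restrictNormalHom K : (H ≃ₐ[F] H) →* (K ≃ₐ[F] K)))) D.S D.T χ := by
    have h1 := (hPSI F K H D.c (fun ψ => LST Lf D.S D.T ψ)).1
    have h2 := (hPSI F K H D.c (fun ψ => LST Lf D.S D.T ψ)).2
      (AlgEquiv.restrictNormalHom K : (H ≃ₐ[F] H) →* (K ≃ₐ[F] K)).ker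
    rw [Finset.prod_congr rfl (fun ψ _ => hΘ ψ), h2, ← h1]
    refine Finset.prod_congr rfl fun χ _ => ?_
    exact (hL2 D.S D.T χ).symm
  -- the index
  have hc2 : ((AlgEquiv.restrictNormalHom K D.c : K ≃ₐ[F] K) : K ≃+* K) ≠ RingEquiv.refl K := by
    intro h
    apply hc1
    apply AlgEquiv.ext
    intro x
    exact congrArg (fun f : K ≃+* K => f x) h
  obtain ⟨i1, i2, z', hz'⟩ := hIDX k K ((AlgEquiv.restrictNormalHom K D.c : K ≃ₐ[F] K) : K ≃+* K) hc2 hck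
    {P : HOS K | ∃ j, P.under (𝓞 F) = (D.w j).under (𝓞 F)} Tk hty (by
      rintro P ⟨j, hj⟩ hP
      rw [hTk, hund, hj, D.hw] at hP
      exact D.hvT j hP) (by
      intro ζ hζ h
      refine hTCK F K H D.T D.htor ζ hζ fun P hP => h P ?_
      rw [hTk, hund]
      exact hP)
  rw [hset] at i1 i2 hz'
  refine ⟨i1, i2, z * z', ?_⟩
  set I : ℕ := (dM ((AlgEquiv.restrictNormalHom K D.c : K ≃ₐ[F] K) : K ≃+* K) {P : HOS K | ∃ j, P.under (𝓞 F) = (D.w j).under (𝓞 F)} {P : HOS K | P.under (𝓞 F) ∈ D.T}).relIndex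
    (DV ((AlgEquiv.restrictNormalHom K D.c : K ≃ₐ[F] K) : K ≃+* K) {P : HOS K | ∃ j, P.under (𝓞 F) = (D.w j).under (𝓞 F)}) with hI
  rw [hprod]
  set A : ℂ := ∏ χ ∈ odd (AlgEquiv.restrictNormalHom K D.c : K ≃ₐ[F] K), LST (fun ψ : (K ≃ₐ[F] K) →* ℂˣ =>
        Lf (ψ.comp (AlgEquiv.restrictNormalHom K : (H ≃ₐ[F] H) →* (K ≃ₐ[F] K)))) D.S D.T χ with hA
  have hzc : (I : ℂ) * (z' : ℂ) * (2 ^ {q : HOS k | ty K q = 0}.ncard * (classNumber k : ℂ) *
      (IsCMField.indexRealUnits K : ℂ) * (Units.torsionOrder K : ℂ)) =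
      2 * (classNumber K : ℂ) * ∏ q ∈ Tk, ((nm q : ℂ) - (ty K q : ℂ)) := by
    exact_mod_cast congrArg (fun t : ℤ => (t : ℂ)) hz'
  have hX : (2 : ℂ) ^ {q : HOS k | ty K q = 0}.ncard * ((classNumber k : ℂ) *
      (IsCMField.indexRealUnits K : ℂ) * (Units.torsionOrder K : ℂ)) ≠ 0 := by
    refine mul_ne_zero (pow_ne_zero _ two_ne_zero) (mul_ne_zero (mul_ne_zero ?_ ?_) ?_)
    · have : classNumber k ≠ 0 := Fintype.card_ne_zero
      exact_mod_cast this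
    · have : IsCMField.indexRealUnits K ≠ 0 := by
        rcases IsCMField.indexRealUnits_eq_one_or_two K with h | h <;> omega
      exact_mod_cast this
    · have : Units.torsionOrder K ≠ 0 := NeZero.ne _
      exact_mod_cast this
  apply mul_left_cancel₀ hX
  rw [hdeg] at hz
  push_cast
  rw [pow_add]
  linear_combination 2 * hz - ((z : ℂ) * 2 ^ D.S.card * 2 ^ (finrank ℚ F *
    (Psi (AlgEquiv.restrictNormalHom K : (H ≃ₐ[F] H) →* (K ≃ₐ[F] K)).ker D.c).card)) * hzc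

end Pool.Agent.RB
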